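import Mathlib

set_option autoImplicit false

/-! A class `K` of groups given by two conditions, and its closure properties. -/

namespace Pool.Agent.H28.Rad

open scoped commutatorElement

universe u v w

/-- Products `(a w a⁻¹)(b w⁻¹ b⁻¹)`. -/
def PP {G : Type u} [Group G] (w : G) : Set G := {y | ∃ a b : G, y = (a * w * a⁻¹) * (b * w⁻¹ * b⁻¹)}

def LocA {G : Type u} [Group G] (g : G) : Prop := ∃ a : G, g ∈ PP ⁅g, a * g * a⁻¹⁆

def LocD {G : Type u} [Group G] (g : G) : Prop :=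
  ∃ s1 ∈ PP g, ∃ s2 ∈ PP g, ∀ x : G, ∃ y1 ∈ PP ⁅x, s1⁆, ∃ y2 ∈ PP ⁅x, s2⁆,
    ∀ h : G, Commute ((y1 * y2)⁻¹ * x) (h * g * h⁻¹)

/-- The class. -/
def K (G : Type u) [Group G] : Prop := ∀ g : G, LocA g ∧ LocD g

/-! ### images and products -/

theorem PP_map {G : Type u} {H : Type v} [Group G] [Group H] (f : G →* H) {w y : G}
    (h : y ∈ PP w) : f y ∈ PP (f w) := by
  obtain ⟨a, b, rfl⟩ := h
  exact ⟨f a, f b, by simp⟩

theorem locA_map {G : Type u} {H : Type v} [Group G] [Group H] (f : G →* H) {g : G}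
    (h : LocA g) : LocA (f g) := by
  obtain ⟨a, ha⟩ := h
  refine ⟨f a, ?_⟩
  have := PP_map f ha
  simpa [map_commutatorElement] using this

theorem locD_map {G : Type u} {H : Type v} [Group G] [Group H] (f : G →* H)
    (hf : Function.Surjective f) {g : G} (h : LocD g) : LocD (f g) := by
  obtain ⟨s1, hs1, s2, hs2, hx⟩ := h
  refine ⟨f s1, PP_map f hs1, f s2, PP_map f hs2, ?_⟩
  intro x'
  obtain ⟨x, rfl⟩ := hf x'
  obtain ⟨y1, hy1, y2, hy2, hc⟩ := hx x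
  refine ⟨f y1, ?_, f y2, ?_, ?_⟩
  · have := PP_map f hy1
    simpa [map_commutatorElement] using this
  · have := PP_map f hy2
    simpa [map_commutatorElement] using this
  · intro h'
    obtain ⟨h, rfl⟩ := hf h'
    have := (hc h).map f
    simpa using this

theorem K_map {G : Type u} {H : Type v} [Group G] [Group H] (f : G →* H)
    (hf : Function.Surjective f) (h : K G) : K H := by
  intro g'
  obtain ⟨g, rfl⟩ := hf g'
  exact ⟨locA_map f (h g).1, locD_map f hf (h g).2⟩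

theorem PP_prod {G : Type u} {H : Type v} [Group G] [Group H] {w y : G} {w' y' : H}
    (h : y ∈ PP w) (h' : y' ∈ PP w') : ((y, y') : G × H) ∈ PP ((w, w') : G × H) := by
  obtain ⟨a, b, rfl⟩ := h
  obtain ⟨a', b', rfl⟩ := h'
  exact ⟨(a, a'), (b, b'), by simp⟩

theorem comm_prod {G : Type u} {H : Type v} [Group G] [Group H] (a b : G) (a' b' : H) :
    ⁅((a, a') : G × H), ((b, b') : G × H)⁆ = (⁅a, b⁆, ⁅a', b'⁆) := by
  simp [commutatorElement_def]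

theorem locA_prod {G : Type u} {H : Type v} [Group G] [Group H] {g : G} {g' : H}
    (h : LocA g) (h' : LocA g') : LocA ((g, g') : G × H) := by
  obtain ⟨a, ha⟩ := h
  obtain ⟨a', ha'⟩ := h'
  refine ⟨(a, a'), ?_⟩
  have := PP_prod ha ha'
  rw [← comm_prod] at this
  simpa using this

theorem locD_prod {G : Type u} {H : Type v} [Group G] [Group H] {g : G} {g' : H}
    (h : LocD g) (h' : LocD g') : LocD ((g, g') : G × H) := by
  obtain ⟨s1, hs1, s2, hs2, hx⟩ := h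
  obtain ⟨s1', hs1', s2', hs2', hx'⟩ := h'
  refine ⟨(s1, s1'), PP_prod hs1 hs1', (s2, s2'), PP_prod hs2 hs2', ?_⟩
  rintro ⟨x, x'⟩
  obtain ⟨y1, hy1, y2, hy2, hc⟩ := hx x
  obtain ⟨y1', hy1', y2', hy2', hc'⟩ := hx' x'
  refine ⟨(y1, y1'), ?_, (y2, y2'), ?_, ?_⟩
  · have := PP_prod hy1 hy1'
    rwa [← comm_prod] at this
  · have := PP_prod hy2 hy2'
    rwa [← comm_prod] at this
  · rintro ⟨h, h'⟩
    exact Prod.ext (hc h).eq (hc' h').eq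

/-! ### relativised notions -/

section rel
variable {G : Type u} [Group G]

def PR (H : Subgroup G) (w : G) : Set G :=
  {y | ∃ a ∈ H, ∃ b ∈ H, y = (a * w * a⁻¹) * (b * w⁻¹ * b⁻¹)}

/-- The normal closure of `g` in `H` (for `g ∈ H`). -/
def NC (H : Subgroup G) (g : G) : Subgroup G := Subgroup.closure {x | ∃ n ∈ H, x = n * g * n⁻¹}

def ZC (H : Subgroup G) (g : G) : Subgroup G := Subgroup.centralizer (NC H g : Set G)

structure KS (H : Subgroup G) : Prop where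
  A : ∀ g ∈ H, ∃ a ∈ H, g ∈ PR H ⁅g, a * g * a⁻¹⁆
  D : ∀ g ∈ H, ∃ s1 ∈ PR H g, ∃ s2 ∈ PR H g, ∀ x ∈ H, ∃ y1 ∈ PR H ⁅x, s1⁆, ∃ y2 ∈ PR H ⁅x, s2⁆,
    (y1 * y2)⁻¹ * x ∈ ZC H g

theorem mem_ZC (H : Subgroup G) (g z : G) :
    z ∈ ZC H g ↔ ∀ n ∈ H, Commute z (n * g * n⁻¹) := by
  constructor
  · intro h n hn
    have := Subgroup.mem_centralizer_iff.mp h (n * g * n⁻¹) (Subgroup.subset_closure ⟨n, hn, rfl⟩)
    exact this.symm
  · intro h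
    have : NC H g ≤ Subgroup.centralizer {z} := by
      refine (Subgroup.closure_le _).mpr ?_
      rintro x ⟨n, hn, rfl⟩
      rw [SetLike.mem_coe, Subgroup.mem_centralizer_iff]
      rintro y rfl
      exact h n hn
    refine Subgroup.mem_centralizer_iff.mpr ?_
    intro x hx
    have := Subgroup.mem_centralizer_iff.mp (this hx) z rfl
    exact this.symm

theorem commute_of_ZC {H : Subgroup G} {g z p : G} (hz : z ∈ ZC H g) (hp : p ∈ NC H g) :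
    Commute z p := (Subgroup.mem_centralizer_iff.mp hz p hp).symm

theorem self_mem_NC (H : Subgroup G) (g : G) : g ∈ NC H g :=
  Subgroup.subset_closure ⟨1, H.one_mem, by simp⟩

theorem NC_le {H M : Subgroup G} {g : G} (hg : g ∈ M) (hM : ∀ h ∈ H, ∀ m ∈ M, h * m * h⁻¹ ∈ M) :
    NC H g ≤ M := by
  refine (Subgroup.closure_le _).mpr ?_
  rintro x ⟨n, hn, rfl⟩
  exact hM n hn g hg

theorem NC_le_self {H : Subgroup G} {g : G} (hg : g ∈ H) : NC H g ≤ H :=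
  NC_le hg (fun _ hh _ hm => H.mul_mem (H.mul_mem hh hm) (H.inv_mem hh))

theorem NC_conj {H : Subgroup G} {g h x : G} (hh : h ∈ H) (hx : x ∈ NC H g) :
    h * x * h⁻¹ ∈ NC H g := by
  unfold NC at hx
  induction hx using Subgroup.closure_induction with
  | mem x hx =>
    obtain ⟨n, hn, rfl⟩ := hx
    refine Subgroup.subset_closure ⟨h * n, H.mul_mem hh hn, by group⟩
  | one => simp
  | mul x y _ _ ihx ihy =>
    have : h * (x * y) * h⁻¹ = (h * x * h⁻¹) * (h * y * h⁻¹) := by group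
    rw [this]; exact Subgroup.mul_mem _ ihx ihy
  | inv x _ ihx =>
    have : h * x⁻¹ * h⁻¹ = (h * x * h⁻¹)⁻¹ := by group
    rw [this]; exact Subgroup.inv_mem _ ihx

theorem ZC_conj {H : Subgroup G} {g h z : G} (hh : h ∈ H) (hz : z ∈ ZC H g) :
    h * z * h⁻¹ ∈ ZC H g := by
  rw [mem_ZC] at hz ⊢
  intro n hn
  have h1 := hz (h⁻¹ * n) (H.mul_mem (H.inv_mem hh) hn)
  have h2 : h * ((h⁻¹ * n) * g * (h⁻¹ * n)⁻¹) * h⁻¹ = n * g * n⁻¹ := by group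
  rw [← h2]
  have h3 := h1.map (MulAut.conj h).toMonoidHom
  simpa using h3

theorem PR_sub_NC {H : Subgroup G} {w : G} : ∀ y ∈ PR H w, y ∈ NC H w := by
  rintro y ⟨a, ha, b, hb, rfl⟩
  refine Subgroup.mul_mem _ (Subgroup.subset_closure ⟨a, ha, rfl⟩) ?_
  have : b * w⁻¹ * b⁻¹ = (b * w * b⁻¹)⁻¹ := by group
  rw [this]
  exact Subgroup.inv_mem _ (Subgroup.subset_closure ⟨b, hb, rfl⟩)

theorem PR_one {H : Subgroup G} {y : G} (h : y ∈ PR H 1) : y = 1 := by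
  obtain ⟨a, _, b, _, rfl⟩ := h
  simp

theorem PR_sub {H M : Subgroup G} {w : G} (hw : w ∈ M)
    (hM : ∀ h ∈ H, ∀ m ∈ M, h * m * h⁻¹ ∈ M) : ∀ y ∈ PR H w, y ∈ M := fun y hy =>
  NC_le hw hM (PR_sub_NC y hy)

theorem comm_mem_NC {H : Subgroup G} {g x s : G} (hx : x ∈ H) (hs : s ∈ NC H g) :
    ⁅x, s⁆ ∈ NC H g := by
  rw [commutatorElement_def]
  exact Subgroup.mul_mem _ (NC_conj hx hs) (Subgroup.inv_mem _ hs)

theorem NC_trans {H : Subgroup G} {g w : G} (hw : w ∈ NC H g) : NC H w ≤ NC H g :=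
  NC_le hw (fun _ hh _ hm => NC_conj hh hm)

/-- Decomposition. -/
theorem KS.decomp {H : Subgroup G} (hH : KS H) {g x : G} (hg : g ∈ H) (hx : x ∈ H) :
    ∃ y ∈ NC H g, y⁻¹ * x ∈ ZC H g := by
  obtain ⟨s1, hs1, s2, hs2, h⟩ := hH.D g hg
  obtain ⟨y1, hy1, y2, hy2, hc⟩ := h x hx
  refine ⟨y1 * y2, Subgroup.mul_mem _ ?_ ?_, hc⟩
  · exact NC_trans (comm_mem_NC hx (PR_sub_NC _ hs1)) (PR_sub_NC _ hy1)
  · exact NC_trans (comm_mem_NC hx (PR_sub_NC _ hs2)) (PR_sub_NC _ hy2)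

theorem KS.inter {H : Subgroup G} (hH : KS H) {g x : G} (hg : g ∈ H) (h1 : x ∈ NC H g)
    (h2 : x ∈ ZC H g) : x = 1 := by
  obtain ⟨a, ha, h⟩ := hH.A x (NC_le_self hg h1)
  have h3 : Commute x (a * x * a⁻¹) := commute_of_ZC h2 (NC_conj ha h1)
  rw [commutatorElement_eq_one_iff_commute.mpr h3] at h
  exact PR_one h

theorem KS.conj_in {H M : Subgroup G} (hH : KS H) (hMH : M ≤ H)
    (hM : ∀ h ∈ H, ∀ m ∈ M, h * m * h⁻¹ ∈ M) {w a : G} (hw : w ∈ M) (ha : a ∈ H) :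
    ∃ a' ∈ M, a * w * a⁻¹ = a' * w * a'⁻¹ ∧ a * w⁻¹ * a⁻¹ = a' * w⁻¹ * a'⁻¹ := by
  obtain ⟨y, hy, hz⟩ := hH.decomp (hMH hw) ha
  have hc : Commute (y⁻¹ * a) w := commute_of_ZC hz (self_mem_NC H w)
  have key : a * w * a⁻¹ = y * w * y⁻¹ := by
    have : (y⁻¹ * a) * w * (y⁻¹ * a)⁻¹ = w := by
      rw [hc.eq]; group
    calc a * w * a⁻¹ = y * ((y⁻¹ * a) * w * (y⁻¹ * a)⁻¹) * y⁻¹ := by group
      _ = y * w * y⁻¹ := by rw [this]
  refine ⟨y, NC_le hw hM hy, key, ?_⟩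
  have h1 : a * w⁻¹ * a⁻¹ = (a * w * a⁻¹)⁻¹ := by group
  have h2 : y * w⁻¹ * y⁻¹ = (y * w * y⁻¹)⁻¹ := by group
  rw [h1, h2, key]

theorem KS.PR_sub_PR {H M : Subgroup G} (hH : KS H) (hMH : M ≤ H)
    (hM : ∀ h ∈ H, ∀ m ∈ M, h * m * h⁻¹ ∈ M) {w : G} (hw : w ∈ M) :
    ∀ y ∈ PR H w, y ∈ PR M w := by
  rintro y ⟨a, ha, b, hb, rfl⟩
  obtain ⟨a', ha', h1, _⟩ := hH.conj_in hMH hM hw ha
  obtain ⟨b', hb', _, h2⟩ := hH.conj_in hMH hM hw hb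
  exact ⟨a', ha', b', hb', by rw [h1, h2]⟩

theorem NC_mono {H M : Subgroup G} (hMH : M ≤ H) (w : G) : NC M w ≤ NC H w := by
  refine (Subgroup.closure_le _).mpr ?_
  rintro x ⟨n, hn, rfl⟩
  exact Subgroup.subset_closure ⟨n, hMH hn, rfl⟩

theorem KS.NC_eq {H M : Subgroup G} (hH : KS H) (hMH : M ≤ H)
    (hM : ∀ h ∈ H, ∀ m ∈ M, h * m * h⁻¹ ∈ M) {w : G} (hw : w ∈ M) : NC M w = NC H w := by
  refine le_antisymm (NC_mono hMH w) ?_
  refine (Subgroup.closure_le _).mpr ?_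
  rintro x ⟨n, hn, rfl⟩
  obtain ⟨a', ha', h1, _⟩ := hH.conj_in hMH hM hw hn
  rw [h1]
  exact Subgroup.subset_closure ⟨a', ha', rfl⟩

theorem KS.normal {H M : Subgroup G} (hH : KS H) (hMH : M ≤ H)
    (hM : ∀ h ∈ H, ∀ m ∈ M, h * m * h⁻¹ ∈ M) : KS M := by
  constructor
  · intro g hg
    obtain ⟨a, ha, h⟩ := hH.A g (hMH hg)
    obtain ⟨a', ha', h1, _⟩ := hH.conj_in hMH hM hg ha
    refine ⟨a', ha', ?_⟩
    rw [h1] at h
    have hmem : ⁅g, a' * g * a'⁻¹⁆ ∈ M := by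
      rw [commutatorElement_def]
      exact M.mul_mem (M.mul_mem (M.mul_mem hg (M.mul_mem (M.mul_mem ha' hg) (M.inv_mem ha')))
        (M.inv_mem hg)) (M.inv_mem (M.mul_mem (M.mul_mem ha' hg) (M.inv_mem ha')))
    exact hH.PR_sub_PR hMH hM hmem g h
  · intro g hg
    obtain ⟨s1, hs1, s2, hs2, h⟩ := hH.D g (hMH hg)
    have hs1M : s1 ∈ M := PR_sub hg hM s1 hs1
    have hs2M : s2 ∈ M := PR_sub hg hM s2 hs2
    refine ⟨s1, hH.PR_sub_PR hMH hM hg s1 hs1, s2, hH.PR_sub_PR hMH hM hg s2 hs2, ?_⟩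
    intro x hx
    obtain ⟨y1, hy1, y2, hy2, hc⟩ := h x (hMH hx)
    have hm : ∀ s ∈ M, ⁅x, s⁆ ∈ M := fun s hs => by
      rw [commutatorElement_def]
      exact M.mul_mem (M.mul_mem (M.mul_mem hx hs) (M.inv_mem hx)) (M.inv_mem hs)
    refine ⟨y1, hH.PR_sub_PR hMH hM (hm s1 hs1M) y1 hy1, y2,
      hH.PR_sub_PR hMH hM (hm s2 hs2M) y2 hy2, ?_⟩
    unfold ZC at hc ⊢
    rw [hH.NC_eq hMH hM hg]
    exact hc

/-- Link with the type-level class. -/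
theorem KS_iff (H : Subgroup G) : KS H ↔ K H := by
  constructor
  · intro hH g
    constructor
    · obtain ⟨a, ha, b, hb, c, hc, h⟩ := hH.A g.1 g.2
      exact ⟨⟨a, ha⟩, ⟨b, hb⟩, ⟨c, hc⟩, Subtype.ext (by simpa [commutatorElement_def] using h)⟩
    · obtain ⟨s1, ⟨a1, ha1, b1, hb1, h1⟩, s2, ⟨a2, ha2, b2, hb2, h2⟩, hx⟩ := hH.D g.1 g.2
      subst h1 h2
      refine ⟨(⟨a1, ha1⟩ * g * ⟨a1, ha1⟩⁻¹) * (⟨b1, hb1⟩ * g⁻¹ * ⟨b1, hb1⟩⁻¹), ⟨_, _, rfl⟩,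
        (⟨a2, ha2⟩ * g * ⟨a2, ha2⟩⁻¹) * (⟨b2, hb2⟩ * g⁻¹ * ⟨b2, hb2⟩⁻¹), ⟨_, _, rfl⟩, ?_⟩
      intro x
      obtain ⟨y1, ⟨c1, hc1, d1, hd1, e1⟩, y2, ⟨c2, hc2, d2, hd2, e2⟩, hc⟩ := hx x.1 x.2
      subst e1 e2
      refine ⟨_, ⟨⟨c1, hc1⟩, ⟨d1, hd1⟩, rfl⟩, _, ⟨⟨c2, hc2⟩, ⟨d2, hd2⟩, rfl⟩, ?_⟩
      intro h
      have := (mem_ZC _ _ _).mp hc h.1 h.2
      apply Subtype.ext
      simpa [commutatorElement_def] using this.eq
  · intro hH
    constructor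
    · intro g hg
      obtain ⟨a, b, c, h⟩ := (hH ⟨g, hg⟩).1
      refine ⟨a.1, a.2, b.1, b.2, c.1, c.2, ?_⟩
      have := congrArg Subtype.val h
      simpa [commutatorElement_def] using this
    · intro g hg
      obtain ⟨s1, ⟨a1, b1, h1⟩, s2, ⟨a2, b2, h2⟩, hx⟩ := (hH ⟨g, hg⟩).2
      subst h1 h2
      refine ⟨_, ⟨a1.1, a1.2, b1.1, b1.2, rfl⟩, _, ⟨a2.1, a2.2, b2.1, b2.2, rfl⟩, ?_⟩
      intro x hxH
      obtain ⟨y1, ⟨c1, d1, e1⟩, y2, ⟨c2, d2, e2⟩, hc⟩ := hx ⟨x, hxH⟩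
      subst e1 e2
      refine ⟨_, ⟨c1.1, c1.2, d1.1, d1.2, rfl⟩, _, ⟨c2.1, c2.2, d2.1, d2.2, rfl⟩, ?_⟩
      rw [mem_ZC]
      intro n hn
      have := congrArg Subtype.val (hc ⟨n, hn⟩).eq
      simpa [commutatorElement_def, Commute, SemiconjBy] using this

theorem K_top_iff : KS (⊤ : Subgroup G) ↔ K G := by
  rw [KS_iff]
  constructor
  · intro h
    exact K_map (Subgroup.topEquiv (G := G)).toMonoidHom (Subgroup.topEquiv (G := G)).surjective h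
  · intro h
    exact K_map (Subgroup.topEquiv (G := G)).symm.toMonoidHom
      (Subgroup.topEquiv (G := G)).symm.surjective h

end rel

end Pool.Agent.H28.Rad
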