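import Mathlib

set_option autoImplicit false

/-! Definitions used in the statement: the first-order language of groups, satisfaction of a
sentence in a group, radical classes of groups, local finiteness. -/

namespace Pool.Agent.H28.Rad

universe u

/-- Function symbols of the language of groups: `1`, inverse, multiplication. -/
inductive GroupFunc : ℕ → Type
  | one : GroupFunc 0
  | inv : GroupFunc 1
  | mul : GroupFunc 2

/-- The first-order language of groups (no relation symbols besides equality). -/
def grp : FirstOrder.Language.{0, 0} := ⟨GroupFunc, fun _ => Empty⟩

/-- A group as a structure for the language of groups. -/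
def grpStr (G : Type u) [Group G] : grp.Structure G where
  funMap := fun {_} f => match f with
    | .one => fun _ => 1
    | .inv => fun v => (v 0)⁻¹
    | .mul => fun v => v 0 * v 1
  RelMap := fun {_} r _ => r.elim

/-- The group `G` satisfies the sentence `φ`. -/
def Sat (φ : grp.Sentence) (G : Type u) [Group G] : Prop :=
  @FirstOrder.Language.Sentence.Realize grp G (grpStr G) φ

/-- A class of groups `C` is radical: closed under homomorphic images, under normal subgroups,
and it contains every group generated by its normal subgroups belonging to `C`. -/
structure IsRadical (C : ∀ (G : Type u) [Group G], Prop) : Prop where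
  image : ∀ (G H : Type u) [Group G] [Group H] (f : G →* H), Function.Surjective f → C G → C H
  normal : ∀ (G : Type u) [Group G] (N : Subgroup G), N.Normal → C G → C N
  join : ∀ (G : Type u) [Group G],
    Subgroup.closure {x : G | ∃ N : Subgroup G, N.Normal ∧ C N ∧ x ∈ N} = ⊤ → C G

/-- A group is locally finite if all its finitely generated subgroups are finite. -/
def LocallyFiniteGroup (G : Type u) [Group G] : Prop := ∀ H : Subgroup G, H.FG → Finite H

end Pool.Agent.H28.Rad
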