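import Pool.Agent.H28.Rad.Join

set_option autoImplicit false

namespace Pool.Agent.H28.Rad

open scoped commutatorElement

universe u v w

variable {G : Type u} [Group G]

theorem K_of_KS {H : Subgroup G} (h : KS H) : K H := (KS_iff H).mp h
theorem KS_of_K {H : Subgroup G} (h : K H) : KS H := (KS_iff H).mpr h

/-- Normal subgroups. -/
theorem K_normal (h : K G) (N : Subgroup G) [hN : N.Normal] : K N := by
  have hT : KS (⊤ : Subgroup G) := K_top_iff.mpr h
  exact K_of_KS (hT.normal le_top (fun x _ m hm => hN.conj_mem m hm x))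

theorem K_two {N1 N2 : Subgroup G} [N1.Normal] [N2.Normal] (hsup : N1 ⊔ N2 = ⊤)
    (k1 : KS N1) (k2 : KS N2) : K G := by
  intro g
  have hg : g ∈ N1 ⊔ N2 := by rw [hsup]; exact Subgroup.mem_top g
  obtain ⟨g1, hg1, g2, hg2, rfl⟩ := Subgroup.mem_sup_of_normal_left.mp hg
  have hdec : ∀ x : G, ∃ p ∈ NC N1 g1, p⁻¹ * x ∈ ZC N1 g1 := fun x =>
    L3 k1 k2 hg1 x (by rw [hsup]; exact Subgroup.mem_top x)
  set A := NC N1 g1 with hA
  haveI hAn : A.Normal := by
    constructor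
    intro a ha x
    obtain ⟨p, hp, hz⟩ := hdec x
    have hc : Commute (p⁻¹ * x) a := commute_of_ZC hz ha
    have h1 : (p⁻¹ * x) * a * (p⁻¹ * x)⁻¹ = a := by rw [hc.eq]; group
    have h2 : x * a * x⁻¹ = p * a * p⁻¹ := by
      calc x * a * x⁻¹ = p * ((p⁻¹ * x) * a * (p⁻¹ * x)⁻¹) * p⁻¹ := by group
        _ = p * a * p⁻¹ := by rw [h1]
    rw [h2]
    exact A.mul_mem (A.mul_mem hp ha) (A.inv_mem hp)
  set B := ZC N1 g1 with hB
  haveI hBn : B.Normal := by
    rw [hB]; unfold ZC; exact Subgroup.normal_centralizer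
  have hAle : A ≤ N1 := NC_le_self hg1
  have kA : KS A := k1.normal hAle (fun x _ m hm => hAn.conj_mem m hm x)
  -- the two quotients
  have KB : K (G ⧸ B) := by
    refine K_map ((QuotientGroup.mk' B).comp A.subtype) ?_ (K_of_KS kA)
    intro y
    obtain ⟨x, rfl⟩ := QuotientGroup.mk'_surjective B y
    obtain ⟨p, hp, hz⟩ := hdec x
    refine ⟨⟨p, hp⟩, ?_⟩
    show QuotientGroup.mk' B p = QuotientGroup.mk' B x
    rw [QuotientGroup.mk'_apply, QuotientGroup.mk'_apply, QuotientGroup.eq]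
    exact hz
  have hgA : LocA (QuotientGroup.mk' A (g1 * g2)) ∧ LocD (QuotientGroup.mk' A (g1 * g2)) := by
    have e1 : QuotientGroup.mk' A (g1 * g2) = QuotientGroup.mk' A g2 := by
      rw [map_mul]
      have : QuotientGroup.mk' A g1 = 1 := by
        rw [QuotientGroup.mk'_apply, QuotientGroup.eq_one_iff]
        exact self_mem_NC _ _
      rw [this, one_mul]
    rw [e1]
    have hs := QuotientGroup.mk'_surjective A
    haveI n1 : (N1.map (QuotientGroup.mk' A)).Normal := Subgroup.Normal.map inferInstance _ hs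
    haveI n2 : (N2.map (QuotientGroup.mk' A)).Normal := Subgroup.Normal.map inferInstance _ hs
    have q1 : KS (N1.map (QuotientGroup.mk' A)) := KS_of_K
      (K_map ((QuotientGroup.mk' A).subgroupMap N1) (MonoidHom.subgroupMap_surjective _ _)
        (K_of_KS k1))
    have q2 : KS (N2.map (QuotientGroup.mk' A)) := KS_of_K
      (K_map ((QuotientGroup.mk' A).subgroupMap N2) (MonoidHom.subgroupMap_surjective _ _)
        (K_of_KS k2))
    have hsup' : (N2.map (QuotientGroup.mk' A)) ⊔ (N1.map (QuotientGroup.mk' A)) = ⊤ := by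
      rw [← Subgroup.map_sup, sup_comm, hsup, Subgroup.map_top_of_surjective _ hs]
    have hmem : QuotientGroup.mk' A g2 ∈ N2.map (QuotientGroup.mk' A) :=
      Subgroup.mem_map_of_mem _ hg2
    exact loc_of_mem q2 hmem (fun x => L3 q2 q1 hmem x (by rw [hsup']; exact Subgroup.mem_top x))
  -- combine
  let f : G →* (G ⧸ A) × (G ⧸ B) := (QuotientGroup.mk' A).prod (QuotientGroup.mk' B)
  have hinj : Function.Injective f := by
    rw [injective_iff_map_eq_one]
    intro x hx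
    have h1 : QuotientGroup.mk' A x = 1 := congrArg Prod.fst hx
    have h2 : QuotientGroup.mk' B x = 1 := congrArg Prod.snd hx
    rw [QuotientGroup.mk'_apply, QuotientGroup.eq_one_iff] at h1 h2
    exact k1.inter hg1 h1 h2
  have hsurj : Function.Surjective f := by
    rintro ⟨y1, y2⟩
    obtain ⟨x1, rfl⟩ := QuotientGroup.mk'_surjective A y1
    obtain ⟨x2, rfl⟩ := QuotientGroup.mk'_surjective B y2
    obtain ⟨p1, hp1, hz1⟩ := hdec x1
    obtain ⟨p2, hp2, hz2⟩ := hdec x2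
    refine ⟨p2 * (p1⁻¹ * x1), ?_⟩
    refine Prod.ext ?_ ?_
    · show QuotientGroup.mk' A (p2 * (p1⁻¹ * x1)) = QuotientGroup.mk' A x1
      rw [map_mul, map_mul, map_inv]
      have a1 : QuotientGroup.mk' A p1 = 1 := by
        rw [QuotientGroup.mk'_apply, QuotientGroup.eq_one_iff]; exact hp1
      have a2 : QuotientGroup.mk' A p2 = 1 := by
        rw [QuotientGroup.mk'_apply, QuotientGroup.eq_one_iff]; exact hp2
      rw [a1, a2]; simp
    · show QuotientGroup.mk' B (p2 * (p1⁻¹ * x1)) = QuotientGroup.mk' B x2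
      rw [map_mul]
      have a1 : QuotientGroup.mk' B (p1⁻¹ * x1) = 1 := by
        rw [QuotientGroup.mk'_apply, QuotientGroup.eq_one_iff]; exact hz1
      rw [a1, mul_one, QuotientGroup.mk'_apply, QuotientGroup.mk'_apply, QuotientGroup.eq]
      exact hz2
  let F : G ≃* (G ⧸ A) × (G ⧸ B) := MulEquiv.ofBijective f ⟨hinj, hsurj⟩
  have hF : F (g1 * g2) = (QuotientGroup.mk' A (g1 * g2), QuotientGroup.mk' B (g1 * g2)) := rfl
  have hback : F.symm.toMonoidHom
      (QuotientGroup.mk' A (g1 * g2), QuotientGroup.mk' B (g1 * g2)) = g1 * g2 := by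
    rw [← hF]; exact F.symm_apply_apply _
  constructor
  · have := locA_map F.symm.toMonoidHom (locA_prod hgA.1 (KB (QuotientGroup.mk' B (g1 * g2))).1)
    rwa [hback] at this
  · have := locD_map F.symm.toMonoidHom F.symm.surjective
      (locD_prod hgA.2 (KB (QuotientGroup.mk' B (g1 * g2))).2)
    rwa [hback] at this

theorem KS_sup {N1 N2 : Subgroup G} [N1.Normal] [N2.Normal] (k1 : KS N1) (k2 : KS N2) :
    KS (N1 ⊔ N2) := by
  apply KS_of_K
  have e1 : N1 ≤ N1 ⊔ N2 := le_sup_left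
  have e2 : N2 ≤ N1 ⊔ N2 := le_sup_right
  have q1 : KS (N1.subgroupOf (N1 ⊔ N2)) := KS_of_K
    (K_map (Subgroup.subgroupOfEquivOfLe e1).symm.toMonoidHom
      (Subgroup.subgroupOfEquivOfLe e1).symm.surjective (K_of_KS k1))
  have q2 : KS (N2.subgroupOf (N1 ⊔ N2)) := KS_of_K
    (K_map (Subgroup.subgroupOfEquivOfLe e2).symm.toMonoidHom
      (Subgroup.subgroupOfEquivOfLe e2).symm.surjective (K_of_KS k2))
  refine K_two (N1 := N1.subgroupOf (N1 ⊔ N2)) (N2 := N2.subgroupOf (N1 ⊔ N2)) ?_ q1 q2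
  rw [← Subgroup.subgroupOf_sup e1 e2, Subgroup.subgroupOf_self]

theorem KS_bot : KS (⊥ : Subgroup G) := by
  constructor
  · intro g hg
    rw [Subgroup.mem_bot] at hg
    subst hg
    exact ⟨1, Subgroup.one_mem _, 1, Subgroup.one_mem _, 1, Subgroup.one_mem _, by simp⟩
  · intro g hg
    rw [Subgroup.mem_bot] at hg
    subst hg
    refine ⟨1, ⟨1, Subgroup.one_mem _, 1, Subgroup.one_mem _, by simp⟩, 1,
      ⟨1, Subgroup.one_mem _, 1, Subgroup.one_mem _, by simp⟩, ?_⟩
    intro x hx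
    rw [Subgroup.mem_bot] at hx
    subst hx
    exact ⟨1, ⟨1, Subgroup.one_mem _, 1, Subgroup.one_mem _, by simp⟩, 1,
      ⟨1, Subgroup.one_mem _, 1, Subgroup.one_mem _, by simp⟩, by simp⟩

/-- Joins of normal subgroups. -/
theorem K_join (h : sSup {N : Subgroup G | N.Normal ∧ K N} = ⊤) : K G := by
  have hne : ({N : Subgroup G | N.Normal ∧ K N}).Nonempty :=
    ⟨⊥, Subgroup.normal_bot, K_of_KS KS_bot⟩
  have hsup : ∀ N1 ∈ {N : Subgroup G | N.Normal ∧ K N}, ∀ N2 ∈ {N : Subgroup G | N.Normal ∧ K N},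
      N1 ⊔ N2 ∈ {N : Subgroup G | N.Normal ∧ K N} := by
    rintro N1 ⟨n1, k1⟩ N2 ⟨n2, k2⟩
    exact ⟨Subgroup.sup_normal N1 N2, K_of_KS (KS_sup (KS_of_K k1) (KS_of_K k2))⟩
  have hdir : DirectedOn (· ≤ ·) {N : Subgroup G | N.Normal ∧ K N} := fun N1 h1 N2 h2 =>
    ⟨N1 ⊔ N2, hsup N1 h1 N2 h2, le_sup_left, le_sup_right⟩
  have hmem : ∀ x : G, ∃ N ∈ {N : Subgroup G | N.Normal ∧ K N}, x ∈ N := by
    intro x
    have hx : x ∈ sSup {N : Subgroup G | N.Normal ∧ K N} := by rw [h]; exact Subgroup.mem_top x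
    exact (Subgroup.mem_sSup_of_directedOn hne hdir).mp hx
  intro g
  obtain ⟨N, hN, hg⟩ := hmem g
  haveI := hN.1
  refine loc_of_mem (KS_of_K hN.2) hg ?_
  intro x
  obtain ⟨M, hM, hx⟩ := hmem x
  haveI := hM.1
  have hNM := hsup N hN M hM
  have k' : KS (N ⊔ M) := KS_of_K hNM.2
  obtain ⟨y, hy, hz⟩ := k'.decomp (Subgroup.mem_sup_left hg) (Subgroup.mem_sup_right hx)
  have e : NC N g = NC (N ⊔ M) g := k'.NC_eq le_sup_left
    (fun a _ m hm => Subgroup.Normal.conj_mem inferInstance m hm a) hg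
  refine ⟨y, by rw [e]; exact hy, ?_⟩
  unfold ZC at hz ⊢
  rw [e]; exact hz

end Pool.Agent.H28.Rad
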