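import Pool.Agent.H28.Rad.Basic

set_option autoImplicit false

/-! `SL₂` over an algebraically closed field of characteristic 2 lies in the class. -/

namespace Pool.Agent.H28.Rad

open scoped commutatorElement MatrixGroups

variable {F : Type} [Field F]

abbrev S2 (F : Type) [Field F] := Matrix.SpecialLinearGroup (Fin 2) F

def trc (g : S2 F) : F := g 0 0 + g 1 1

def Cm (t : F) : S2 F := ⟨!![0, -1; 1, t], by rw [Matrix.det_fin_two_of]; ring⟩

theorem det_eq (g : S2 F) : g 0 0 * g 1 1 - g 0 1 * g 1 0 = 1 := by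
  have := g.2
  rw [Matrix.det_fin_two] at this
  exact this

theorem ext2 {g h : S2 F} (h00 : g 0 0 = h 0 0) (h01 : g 0 1 = h 0 1) (h10 : g 1 0 = h 1 0)
    (h11 : g 1 1 = h 1 1) : g = h := by
  apply Subtype.ext
  ext i j
  fin_cases i <;> fin_cases j
  · exact h00
  · exact h01
  · exact h10
  · exact h11

theorem mul00 (g h : S2 F) : (g * h) 0 0 = g 0 0 * h 0 0 + g 0 1 * h 1 0 := by
  simp [Matrix.mul_apply, Fin.sum_univ_two]
theorem mul01 (g h : S2 F) : (g * h) 0 1 = g 0 0 * h 0 1 + g 0 1 * h 1 1 := by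
  simp [Matrix.mul_apply, Fin.sum_univ_two]
theorem mul10 (g h : S2 F) : (g * h) 1 0 = g 1 0 * h 0 0 + g 1 1 * h 1 0 := by
  simp [Matrix.mul_apply, Fin.sum_univ_two]
theorem mul11 (g h : S2 F) : (g * h) 1 1 = g 1 0 * h 0 1 + g 1 1 * h 1 1 := by
  simp [Matrix.mul_apply, Fin.sum_univ_two]
theorem one00 : (1 : S2 F) 0 0 = 1 := by simp
theorem one01 : (1 : S2 F) 0 1 = 0 := by simp
theorem one10 : (1 : S2 F) 1 0 = 0 := by simp
theorem one11 : (1 : S2 F) 1 1 = 1 := by simp

theorem inv00 (g : S2 F) : (g⁻¹) 0 0 = g 1 1 := by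
  rw [Matrix.SpecialLinearGroup.SL2_inv_expl]; rfl
theorem inv01 (g : S2 F) : (g⁻¹) 0 1 = - g 0 1 := by
  rw [Matrix.SpecialLinearGroup.SL2_inv_expl]; rfl
theorem inv10 (g : S2 F) : (g⁻¹) 1 0 = - g 1 0 := by
  rw [Matrix.SpecialLinearGroup.SL2_inv_expl]; rfl
theorem inv11 (g : S2 F) : (g⁻¹) 1 1 = g 0 0 := by
  rw [Matrix.SpecialLinearGroup.SL2_inv_expl]; rfl

/-- An element from its four entries. -/
def mk2 (a b c d : F) (h : a * d - b * c = 1) : S2 F :=
  ⟨!![a, b; c, d], by rw [Matrix.det_fin_two_of]; exact h⟩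

theorem two_zero [CharP F 2] : (2 : F) = 0 := by
  have := CharP.cast_eq_zero F 2
  simpa using this

theorem exists_vec [CharP F 2] (g : S2 F) (hg : g ≠ 1) :
    ∃ x y : F, g 1 0 * x ^ 2 + (g 1 1 - g 0 0) * x * y - g 0 1 * y ^ 2 ≠ 0 := by
  by_cases hc : g 1 0 = 0
  · by_cases hb : g 0 1 = 0
    · refine ⟨1, 1, ?_⟩
      intro h
      rw [hc, hb] at h
      have h1 : g 1 1 = g 0 0 := by linear_combination h
      have h2 := det_eq g
      rw [hc, hb, h1] at h2
      have h3 : (g 0 0 - 1) ^ 2 = 0 := by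
        have := two_zero (F := F)
        linear_combination h2 - (g 0 0 - 1) * this
      have h4 : g 0 0 = 1 := by
        have := pow_eq_zero_iff (n := 2) (by norm_num) |>.mp h3
        linear_combination this
      apply hg
      exact ext2 (by rw [h4, one00]) (by rw [hb, one01]) (by rw [hc, one10])
        (by rw [h1, h4, one11])
    · exact ⟨0, 1, by simpa [hc] using hb⟩
  · exact ⟨1, 0, by simpa using hc⟩

theorem conj_comp [IsAlgClosed F] [CharP F 2] (g : S2 F) (hg : g ≠ 1) :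
    ∃ m : S2 F, g = m * Cm (trc g) * m⁻¹ := by
  obtain ⟨x, y, hδ⟩ := exists_vec g hg
  obtain ⟨s, hs⟩ := IsAlgClosed.exists_pow_nat_eq
    (g 1 0 * x ^ 2 + (g 1 1 - g 0 0) * x * y - g 0 1 * y ^ 2) (n := 2) (by norm_num)
  have hs0 : s ≠ 0 := by
    rintro rfl
    apply hδ
    rw [← hs]; norm_num
  have hdet := det_eq g
  have hm : (x / s) * ((g 1 0 * x + g 1 1 * y) / s) - ((g 0 0 * x + g 0 1 * y) / s) * (y / s) = 1 := by
    field_simp
    linear_combination -hs
  refine ⟨mk2 (x / s) ((g 0 0 * x + g 0 1 * y) / s) (y / s) ((g 1 0 * x + g 1 1 * y) / s) hm, ?_⟩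
  rw [eq_mul_inv_iff_mul_eq]
  apply ext2
  · rw [mul00, mul00]
    simp [mk2, Cm, trc]
    ring
  · rw [mul01, mul01]
    simp [mk2, Cm, trc]
    field_simp
    linear_combination -x * hdet
  · rw [mul10, mul10]
    simp [mk2, Cm, trc]
    ring
  · rw [mul11, mul11]
    simp [mk2, Cm, trc]
    field_simp
    linear_combination -y * hdet

theorem conj_of_trc [IsAlgClosed F] [CharP F 2] {g h : S2 F} (hg : g ≠ 1) (hh : h ≠ 1)
    (ht : trc g = trc h) : ∃ n : S2 F, h = n * g * n⁻¹ := by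
  obtain ⟨m, hm⟩ := conj_comp g hg
  obtain ⟨m', hm'⟩ := conj_comp h hh
  refine ⟨m' * m⁻¹, ?_⟩
  rw [hm', ← ht]
  conv_rhs => rw [hm]
  group

theorem exists_p [IsAlgClosed F] : ∃ p : F, p ≠ 0 ∧ p ≠ 1 := by
  classical
  have : Infinite F := IsAlgClosed.instInfinite
  obtain ⟨p, hp⟩ := Infinite.exists_notMem_finset ({0, 1} : Finset F)
  simp at hp
  exact ⟨p, hp.1, hp.2⟩

theorem exists_quad [IsAlgClosed F] (b c : F) : ∃ q : F, q ^ 2 + b * q + c = 0 := by
  have hdeg : (Polynomial.X ^ 2 + Polynomial.C b * Polynomial.X + Polynomial.C c :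
      Polynomial F).degree = 2 := by
    compute_degree!
  obtain ⟨q, hq⟩ := IsAlgClosed.exists_root (Polynomial.X ^ 2 + Polynomial.C b * Polynomial.X +
    Polynomial.C c : Polynomial F) (by rw [hdeg]; norm_num)
  refine ⟨q, ?_⟩
  simpa [Polynomial.IsRoot] using hq

theorem PP_all [IsAlgClosed F] [CharP F 2] {g : S2 F} (hg : g ≠ 1) (x : S2 F) : x ∈ PP g := by
  by_cases hx : x = 1
  · subst hx
    exact ⟨1, 1, by simp⟩
  obtain ⟨p, hp0, hp1⟩ := exists_p (F := F)
  obtain ⟨q, hq⟩ := exists_quad (trc x - trc g * p) (1 - p * (trc g - p))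
  set t := trc g with ht
  set τ := trc x with hτ
  have hdet : p * (t - p) - q * (τ + q - t * p) = 1 := by linear_combination -hq
  let g' : S2 F := mk2 p q (τ + q - t * p) (t - p) hdet
  have hg'1 : g' ≠ 1 := by
    intro h
    have : g' 0 0 = (1 : S2 F) 0 0 := by rw [h]
    rw [one00] at this
    exact hp1 this
  have htg' : trc g = trc g' := by
    rw [← ht]
    show t = p + (t - p)
    ring
  obtain ⟨n1, hn1⟩ := conj_of_trc hg hg'1 htg'
  have hC1 : Cm t ≠ 1 := by
    intro h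
    have : (Cm t) 0 0 = (1 : S2 F) 0 0 := by rw [h]
    rw [one00] at this
    exact zero_ne_one this
  have htC : trc g = trc (Cm t) := by
    rw [← ht]
    show t = 0 + t
    ring
  obtain ⟨n2, hn2⟩ := conj_of_trc hg hC1 htC
  let y : S2 F := Cm t * g'⁻¹
  have hy1 : y ≠ 1 := by
    intro h
    have : y 0 1 = (1 : S2 F) 0 1 := by rw [h]
    rw [one01, mul01, inv01, inv11] at this
    have h2 : (0 : F) * (-q) + (-1) * p = 0 := this
    apply hp0
    linear_combination -h2
  have hty : trc y = trc x := by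
    rw [← hτ]
    show y 0 0 + y 1 1 = τ
    rw [mul00, mul11, inv00, inv01, inv10, inv11]
    show (0 : F) * (t - p) + (-1) * (-(τ + q - t * p)) + (1 * (-q) + t * p) = τ
    ring
  obtain ⟨n, hn⟩ := conj_of_trc hy1 hx hty
  refine ⟨n * n2, n * n1, ?_⟩
  rw [hn]
  show n * (Cm t * g'⁻¹) * n⁻¹ = _
  rw [hn2, hn1]
  group

def su : S2 F := mk2 1 1 0 1 (by ring)
def sl : S2 F := mk2 1 0 1 1 (by ring)

theorem cent [CharP F 2] {x : S2 F} (h1 : Commute x su) (h2 : Commute x sl) : x = 1 := by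
  have a1 : (x * su : S2 F) 0 0 = (su * x : S2 F) 0 0 := by rw [h1.eq]
  have a2 : (x * su : S2 F) 0 1 = (su * x : S2 F) 0 1 := by rw [h1.eq]
  have a3 : (x * sl : S2 F) 0 0 = (sl * x : S2 F) 0 0 := by rw [h2.eq]
  rw [mul00, mul00] at a1 a3
  rw [mul01, mul01] at a2
  have b1 : x 0 0 * 1 + x 0 1 * 0 = 1 * x 0 0 + 1 * x 1 0 := a1
  have b2 : x 0 0 * 1 + x 0 1 * 1 = 1 * x 0 1 + 1 * x 1 1 := a2
  have b3 : x 0 0 * 1 + x 0 1 * 1 = 1 * x 0 0 + 0 * x 1 0 := a3
  have c1 : x 1 0 = 0 := by linear_combination -b1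
  have c2 : x 0 1 = 0 := by linear_combination b3
  have c3 : x 0 0 = x 1 1 := by linear_combination b2
  have h2 := det_eq x
  rw [c1, c2, ← c3] at h2
  have h3 : (x 0 0 - 1) ^ 2 = 0 := by
    have := two_zero (F := F)
    linear_combination h2 - (x 0 0 - 1) * this
  have h4 : x 0 0 = 1 := by
    have := pow_eq_zero_iff (n := 2) (by norm_num) |>.mp h3
    linear_combination this
  exact ext2 (by rw [h4, one00]) (by rw [c2, one01]) (by rw [c1, one10])
        (by rw [← c3, h4, one11])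

theorem su_ne : (su : S2 F) ≠ 1 := by
  intro h
  have : (su : S2 F) 0 1 = (1 : S2 F) 0 1 := by rw [h]
  rw [one01] at this
  exact one_ne_zero this

theorem one_mem_PP {G : Type} [Group G] (w : G) : (1 : G) ∈ PP w := ⟨1, 1, by simp⟩

theorem K_SL2 [IsAlgClosed F] [CharP F 2] : K (S2 F) := by
  intro g
  by_cases hg : g = 1
  · subst hg
    constructor
    · exact ⟨1, 1, 1, by simp⟩
    · refine ⟨1, one_mem_PP _, 1, one_mem_PP _, ?_⟩
      intro x
      refine ⟨1, one_mem_PP _, 1, one_mem_PP _, ?_⟩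
      intro h
      simp
  · constructor
    · -- some conjugate of g does not commute with g
      by_contra hcon
      have hcomm : ∀ a : S2 F, Commute g (a * g * a⁻¹) := by
        intro a
        by_contra hc
        apply hcon
        refine ⟨a, PP_all ?_ g⟩
        intro h
        exact hc (commutatorElement_eq_one_iff_commute.mp h)
      -- then g commutes with everything
      have hall : ∀ x : S2 F, Commute g x := by
        intro x
        obtain ⟨a, b, rfl⟩ := PP_all hg x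
        have : b * g⁻¹ * b⁻¹ = (b * g * b⁻¹)⁻¹ := by group
        rw [this]
        exact (hcomm a).mul_right (hcomm b).inv_right
      exact hg (cent (hall su) (hall sl))
    · refine ⟨su, PP_all hg su, sl, PP_all hg sl, ?_⟩
      intro x
      by_cases h1 : Commute x su
      · by_cases h2 : Commute x sl
        · have := cent h1 h2
          subst this
          refine ⟨1, one_mem_PP _, 1, one_mem_PP _, ?_⟩
          intro h
          simp
        · refine ⟨1, one_mem_PP _, x, PP_all ?_ x, ?_⟩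
          · intro h; exact h2 (commutatorElement_eq_one_iff_commute.mp h)
          · intro h; simp
      · refine ⟨x, PP_all ?_ x, 1, one_mem_PP _, ?_⟩
        · intro h; exact h1 (commutatorElement_eq_one_iff_commute.mp h)
        · intro h; simp

/-- Powers of a diagonal matrix. -/
theorem diag_pow (t : F) (ht : t ≠ 0) (n : ℕ) :
    ((mk2 t 0 0 t⁻¹ (by rw [mul_inv_cancel₀ ht]; ring)) ^ n : S2 F) 0 0 = t ^ n ∧
    ((mk2 t 0 0 t⁻¹ (by rw [mul_inv_cancel₀ ht]; ring)) ^ n : S2 F) 0 1 = 0 := by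
  induction n with
  | zero => simp
  | succ n ih =>
    rw [pow_succ, mul00, mul01, ih.1, ih.2]
    constructor
    · show t ^ n * t + 0 * 0 = t ^ (n + 1)
      ring
    · show t ^ n * 0 + 0 * t⁻¹ = 0
      ring

theorem not_locFin (t : F) (ht : t ≠ 0) (hinf : ∀ n : ℕ, 0 < n → t ^ n ≠ 1) :
    ∃ H : Subgroup (S2 F), H.FG ∧ ¬ Finite H := by
  set d : S2 F := mk2 t 0 0 t⁻¹ (by rw [mul_inv_cancel₀ ht]; ring) with hd
  refine ⟨Subgroup.zpowers d, ⟨{d}, by rw [Finset.coe_singleton, Subgroup.zpowers_eq_closure]⟩, ?_⟩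
  intro hfin
  have : IsOfFinOrder d := by
    rw [← Nat.card_zpowers d |> fun _ => finite_zpowers (a := d)]
    exact hfin
  rw [isOfFinOrder_iff_pow_eq_one] at this
  obtain ⟨n, hn, h⟩ := this
  apply hinf n hn
  have h1 := (diag_pow t ht n).1
  rw [← hd, h, one00] at h1
  exact h1.symm

end Pool.Agent.H28.Rad
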