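import Pool.Agent.H28.Rad.Formula
import Pool.Agent.H28.Rad.Main
import Pool.Agent.H28.Rad.SL2

set_option autoImplicit false

namespace Pool.Agent.H28.Rad

open scoped commutatorElement

universe u

theorem sSup_of_closure {G : Type u} [Group G]
    (h : Subgroup.closure {x : G | ∃ N : Subgroup G, N.Normal ∧ K N ∧ x ∈ N} = ⊤) :
    sSup {N : Subgroup G | N.Normal ∧ K N} = ⊤ := by
  rw [eq_top_iff, ← h, Subgroup.closure_le]
  rintro x ⟨N, hN, hK, hx⟩
  exact (le_sSup (show N ∈ {N : Subgroup G | N.Normal ∧ K N} from ⟨hN, hK⟩)) hx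

theorem radical_phi : IsRadical.{u} (fun G _ => Sat phi G) := by
  constructor
  · intro G H _ _ f hf h
    rw [sat_phi] at h ⊢
    exact K_map f hf h
  · intro G _ N hN h
    rw [sat_phi] at h ⊢
    exact K_normal h N
  · intro G _ h
    rw [sat_phi]
    refine K_join (sSup_of_closure ?_)
    simpa only [sat_phi] using h

abbrev FF := AlgebraicClosure (RatFunc (ZMod 2))

instance : CharP (RatFunc (ZMod 2)) 2 :=
  charP_of_injective_algebraMap (algebraMap (ZMod 2) (RatFunc (ZMod 2))).injective 2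

instance : CharP FF 2 :=
  charP_of_injective_algebraMap (algebraMap (RatFunc (ZMod 2)) FF).injective 2

theorem exists_inf : ∃ t : FF, t ≠ 0 ∧ ∀ n : ℕ, 0 < n → t ^ n ≠ 1 := by
  refine ⟨algebraMap (RatFunc (ZMod 2)) FF RatFunc.X, ?_, ?_⟩
  · intro h
    have := (algebraMap (RatFunc (ZMod 2)) FF).injective (h.trans (map_zero _).symm)
    exact RatFunc.X_ne_zero this
  · intro n hn h
    rw [← map_pow] at h
    have h1 := (algebraMap (RatFunc (ZMod 2)) FF).injective (h.trans (map_one _).symm)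
    rw [← RatFunc.algebraMap_X, ← map_pow, ← map_one (algebraMap (Polynomial (ZMod 2))
      (RatFunc (ZMod 2)))] at h1
    have h2 := RatFunc.algebraMap_injective (ZMod 2) h1
    have h3 := congrArg Polynomial.natDegree h2
    rw [Polynomial.natDegree_X_pow, Polynomial.natDegree_one] at h3
    omega

theorem main_theorem :
    ∃ φ : grp.Sentence, IsRadical.{u} (fun G _ => Sat φ G) ∧
      (∃ (G : Type u) (_ : Group G), Sat φ G ∧ ¬ LocallyFiniteGroup G) ∧
      (∃ (G : Type u) (_ : Group G), ¬ Sat φ G) := by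
  refine ⟨phi, radical_phi, ?_, ?_⟩
  · refine ⟨ULift.{u} (S2 FF), inferInstance, ?_, ?_⟩
    · rw [sat_phi]
      exact K_map (MulEquiv.ulift.symm : S2 FF ≃* ULift.{u} (S2 FF)).toMonoidHom
        (MulEquiv.ulift.symm : S2 FF ≃* ULift.{u} (S2 FF)).surjective K_SL2
    · intro hlf
      obtain ⟨t, ht, hinf⟩ := exists_inf
      obtain ⟨H, hH, hnf⟩ := not_locFin t ht hinf
      apply hnf
      have h1 : (H.map (MulEquiv.ulift.symm : S2 FF ≃* ULift.{u} (S2 FF)).toMonoidHom).FG :=
        by
          obtain ⟨S, rfl⟩ := hH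
          classical
          refine ⟨S.image (MulEquiv.ulift.symm : S2 FF ≃* ULift.{u} (S2 FF)), ?_⟩
          rw [MonoidHom.map_closure, Finset.coe_image]
          rfl
      have h2 := hlf _ h1
      exact Finite.of_injective
        (fun x : H => (⟨MulEquiv.ulift.symm x.1, Subgroup.mem_map_of_mem _ x.2⟩ :
          (H.map (MulEquiv.ulift.symm : S2 FF ≃* ULift.{u} (S2 FF)).toMonoidHom)))
        (fun x y hxy => Subtype.ext (by simpa using congrArg Subtype.val hxy))
  · refine ⟨ULift.{u} (Multiplicative ℤ), inferInstance, ?_⟩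
    rw [sat_phi]
    intro hK
    obtain ⟨a, h⟩ := (hK (ULift.up (Multiplicative.ofAdd 1))).1
    have h0 : ⁅(ULift.up (Multiplicative.ofAdd (1 : ℤ)) : ULift.{u} (Multiplicative ℤ)),
        a * ULift.up (Multiplicative.ofAdd 1) * a⁻¹⁆ = 1 :=
      commutatorElement_eq_one_iff_commute.mpr (mul_comm _ _)
    rw [h0] at h
    obtain ⟨b, c, h⟩ := h
    have h1 : (ULift.up (Multiplicative.ofAdd (1 : ℤ)) : ULift.{u} (Multiplicative ℤ)) = 1 := by
      rw [h]; simp
    have h2 := congrArg (fun z : ULift.{u} (Multiplicative ℤ) => Multiplicative.toAdd z.down) h1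
    simp at h2

end Pool.Agent.H28.Rad
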