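import Pool.Agent.H28.Rad.Def
import Pool.Agent.H28.Rad.Basic

set_option autoImplicit false

namespace Pool.Agent.H28.Rad

open FirstOrder FirstOrder.Language
open scoped commutatorElement

universe u v

section terms
variable {α : Type v}

def fmul : grp.Functions 2 := GroupFunc.mul
def finv : grp.Functions 1 := GroupFunc.inv

def tm (a b : grp.Term α) : grp.Term α := Functions.apply₂ fmul a b
def ti (a : grp.Term α) : grp.Term α := Functions.apply₁ finv a

/-- `a w a⁻¹` -/
def tc (a w : grp.Term α) : grp.Term α := tm (tm a w) (ti a)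
/-- `(a w a⁻¹)(b w⁻¹ b⁻¹)` -/
def tp (w a b : grp.Term α) : grp.Term α := tm (tc a w) (tc b (ti w))
/-- commutator -/
def tk (a b : grp.Term α) : grp.Term α := tm (tm (tm a b) (ti a)) (ti b)

variable {G : Type u} [Group G]

theorem real_tm (a b : grp.Term α) (v : α → G) :
    letI := grpStr G
    (tm a b).realize v = a.realize v * b.realize v := by
  letI := grpStr G
  unfold tm
  rw [Term.realize_functions_apply₂]
  rfl

theorem real_ti (a : grp.Term α) (v : α → G) :
    letI := grpStr G
    (ti a).realize v = (a.realize v)⁻¹ := by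
  letI := grpStr G
  unfold ti
  rw [Term.realize_functions_apply₁]
  rfl

end terms

/-- variable number `i` -/
def vr {n : ℕ} (i : Fin n) : grp.Term (Empty ⊕ Fin n) := Term.var (Sum.inr i)

/-- `∀ g ∃ a b c, g = P([g, a g a⁻¹]; b, c)`. -/
def phiA : grp.Sentence :=
  BoundedFormula.all (BoundedFormula.ex (BoundedFormula.ex (BoundedFormula.ex
    (Term.bdEqual (vr (0 : Fin 4)) (tp (tk (vr 0) (tc (vr 1) (vr 0))) (vr 2) (vr 3))))))

/-- Variables: `g = 0`, `a, b, c, d = 1..4`, `x = 5`, `e, f, k, l = 6..9`, `h = 10`. -/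
def yy : grp.Term (Empty ⊕ Fin 11) :=
  tm (ti (tm (tp (tk (vr 5) (tp (vr 0) (vr 1) (vr 2))) (vr 6) (vr 7))
    (tp (tk (vr 5) (tp (vr 0) (vr 3) (vr 4))) (vr 8) (vr 9)))) (vr 5)

def phiD : grp.Sentence :=
  BoundedFormula.all (BoundedFormula.ex (BoundedFormula.ex (BoundedFormula.ex (BoundedFormula.ex
    (BoundedFormula.all (BoundedFormula.ex (BoundedFormula.ex (BoundedFormula.ex
      (BoundedFormula.ex (BoundedFormula.all
        (Term.bdEqual (tm yy (tc (vr 10) (vr 0))) (tm (tc (vr 10) (vr 0)) yy))))))))))))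

def phi : grp.Sentence := phiA ⊓ phiD

theorem sat_A (G : Type u) [Group G] : Sat phiA G ↔ ∀ g : G, LocA g := by
  letI := grpStr G
  unfold Sat Sentence.Realize Formula.Realize phiA
  simp only [BoundedFormula.realize_all, BoundedFormula.realize_ex, BoundedFormula.realize_bdEqual]
  refine forall_congr' fun g => ?_
  unfold LocA PP
  refine exists_congr fun a => ?_
  rw [Set.mem_ofPred_eq]
  refine exists_congr fun b => exists_congr fun c => ?_
  simp only [tp, tk, tc, real_tm, real_ti, vr, Term.realize_var, Sum.elim_inr, commutatorElement_def]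
  rfl

theorem sat_D (G : Type u) [Group G] : Sat phiD G ↔ ∀ g : G, LocD g := by
  letI := grpStr G
  unfold Sat Sentence.Realize Formula.Realize phiD
  simp only [BoundedFormula.realize_all, BoundedFormula.realize_ex, BoundedFormula.realize_bdEqual]
  refine forall_congr' fun g => ?_
  unfold LocD
  simp only [yy, tp, tk, tc, real_tm, real_ti, vr, Term.realize_var, Sum.elim_inr]
  constructor
  · rintro ⟨a, b, c, d, h⟩
    refine ⟨_, ⟨a, b, rfl⟩, _, ⟨c, d, rfl⟩, ?_⟩
    intro x
    obtain ⟨e, f, k, l, h2⟩ := h x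
    refine ⟨_, ⟨e, f, rfl⟩, _, ⟨k, l, rfl⟩, ?_⟩
    intro y
    have h3 := h2 y
    exact h3
  · rintro ⟨s1, ⟨a, b, rfl⟩, s2, ⟨c, d, rfl⟩, h⟩
    refine ⟨a, b, c, d, ?_⟩
    intro x
    obtain ⟨y1, ⟨e, f, rfl⟩, y2, ⟨k, l, rfl⟩, h2⟩ := h x
    refine ⟨e, f, k, l, ?_⟩
    intro y
    exact (h2 y).eq

theorem sat_phi (G : Type u) [Group G] : Sat phi G ↔ K G := by
  have h : Sat phi G ↔ Sat phiA G ∧ Sat phiD G := by
    letI := grpStr G
    unfold Sat Sentence.Realize Formula.Realize phi
    exact BoundedFormula.realize_inf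
  rw [h, sat_A, sat_D]
  unfold K
  exact forall_and.symm

end Pool.Agent.H28.Rad
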