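import Pool.Agent.H28.Rad.Basic

set_option autoImplicit false

/-! Closure of the class under joins of normal subgroups. -/

namespace Pool.Agent.H28.Rad

open scoped commutatorElement

universe u v w

variable {G : Type u} [Group G]

section two

/-- Removing a component. -/
theorem comm_drop {E : Subgroup G} {Cz : Subgroup G} (hint : ∀ x, x ∈ E → x ∈ Cz → x = 1)
    (hcom : ∀ e ∈ E, ∀ z ∈ Cz, Commute z e)
    {h e h' s f t : G} (hh : h = e * h') (he : e ∈ E) (hh' : h' ∈ Cz)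
    (hs : s = f * t) (hf : f ∈ E) (ht : t ∈ Cz) (hE : ⁅h, s⁆ ∈ E) : Commute h' s := by
  subst hh hs
  have c1 : Commute h' f := hcom f hf h' hh'
  have c2 : Commute t e := hcom e he t ht
  have hz : h' * t * h'⁻¹ * t⁻¹ ∈ Cz :=
    Cz.mul_mem (Cz.mul_mem (Cz.mul_mem hh' ht) (Cz.inv_mem hh')) (Cz.inv_mem ht)
  have hz2 : h' * t * h'⁻¹ ∈ Cz := Cz.mul_mem (Cz.mul_mem hh' ht) (Cz.inv_mem hh')
  have c3 : Commute (h' * t * h'⁻¹ * t⁻¹) f := hcom f hf _ hz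
  have c4 : Commute (h' * t * h'⁻¹) e := hcom e he _ hz2
  have key : ⁅e * h', f * t⁆ = (e * f * e⁻¹ * f⁻¹) * (h' * t * h'⁻¹ * t⁻¹) := by
    rw [commutatorElement_def]
    calc e * h' * (f * t) * (e * h')⁻¹ * (f * t)⁻¹
        = e * (h' * f) * t * h'⁻¹ * e⁻¹ * t⁻¹ * f⁻¹ := by group
      _ = e * (f * h') * t * h'⁻¹ * e⁻¹ * t⁻¹ * f⁻¹ := by rw [c1.eq]
      _ = e * f * ((h' * t * h'⁻¹) * e⁻¹) * t⁻¹ * f⁻¹ := by group
      _ = e * f * (e⁻¹ * (h' * t * h'⁻¹)) * t⁻¹ * f⁻¹ := by rw [c4.inv_right.eq]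
      _ = e * f * e⁻¹ * ((h' * t * h'⁻¹ * t⁻¹) * f⁻¹) := by group
      _ = e * f * e⁻¹ * (f⁻¹ * (h' * t * h'⁻¹ * t⁻¹)) := by rw [c3.inv_right.eq]
      _ = (e * f * e⁻¹ * f⁻¹) * (h' * t * h'⁻¹ * t⁻¹) := by group
  rw [key] at hE
  have hE2 : h' * t * h'⁻¹ * t⁻¹ ∈ E := by
    have h1 : (e * f * e⁻¹ * f⁻¹) ∈ E :=
      E.mul_mem (E.mul_mem (E.mul_mem he hf) (E.inv_mem he)) (E.inv_mem hf)
    exact (Subgroup.mul_mem_cancel_left E h1).mp hE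
  have h1 := hint _ hE2 hz
  have c5 : Commute h' t := by
    have h2 : h' * t = t * h' := by
      calc h' * t = (h' * t * h'⁻¹ * t⁻¹) * (t * h') := by group
        _ = t * h' := by rw [h1, one_mul]
    exact h2
  exact c1.mul_right c5

variable {N1 N2 : Subgroup G}

theorem meet_norm (H : Subgroup G) [N1.Normal] [N2.Normal] :
    ∀ h ∈ H, ∀ m ∈ N1 ⊓ N2, h * m * h⁻¹ ∈ N1 ⊓ N2 := fun h _ m hm =>
  ⟨Subgroup.Normal.conj_mem inferInstance m hm.1 h, Subgroup.Normal.conj_mem inferInstance m hm.2 h⟩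

theorem comm_mem_meet [N1.Normal] [N2.Normal] {h s : G} (hh : h ∈ N2) (hs : s ∈ N1) :
    ⁅h, s⁆ ∈ N1 ⊓ N2 := by
  rw [commutatorElement_def]
  constructor
  · exact N1.mul_mem (Subgroup.Normal.conj_mem inferInstance s hs h) (N1.inv_mem hs)
  · have : h * s * h⁻¹ * s⁻¹ = h * (s * h⁻¹ * s⁻¹) := by group
    rw [this]
    exact N2.mul_mem hh (Subgroup.Normal.conj_mem inferInstance h⁻¹ (N2.inv_mem hh) s)

/-- One step of removing. -/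
theorem step [N1.Normal] [N2.Normal] (k1 : KS N1) (k2 : KS N2) {d h : G} (hd : d ∈ N1 ⊓ N2)
    (hh : h ∈ N2) : ∃ e ∈ N1 ⊓ N2, ∃ h' ∈ N2, h = e * h' ∧
      ∀ s ∈ N1, ⁅h, s⁆ ∈ NC (N1 ⊓ N2) d → Commute h' s := by
  have kD : KS (N1 ⊓ N2) := k1.normal inf_le_left (meet_norm N1)
  have e1 : NC (N1 ⊓ N2) d = NC N1 d := k1.NC_eq inf_le_left (meet_norm N1) hd
  have e2 : NC (N1 ⊓ N2) d = NC N2 d := k2.NC_eq inf_le_right (meet_norm N2) hd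
  have z1 : ZC (N1 ⊓ N2) d = ZC N1 d := by unfold ZC; rw [e1]
  have z2 : ZC (N1 ⊓ N2) d = ZC N2 d := by unfold ZC; rw [e2]
  obtain ⟨e, he, hz⟩ := k2.decomp hd.2 hh
  rw [← e2] at he
  rw [← z2] at hz
  have heD : e ∈ N1 ⊓ N2 := NC_le_self hd he
  refine ⟨e, heD, e⁻¹ * h, N2.mul_mem (N2.inv_mem heD.2) hh, by group, ?_⟩
  intro s hs hE
  obtain ⟨f, hf, ht⟩ := k1.decomp hd.1 hs
  rw [← e1] at hf
  rw [← z1] at ht
  exact comm_drop (E := NC (N1 ⊓ N2) d) (Cz := ZC (N1 ⊓ N2) d)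
    (fun x hx hx' => kD.inter hd hx hx') (fun e he z hz => commute_of_ZC hz he)
    (h := h) (e := e) (s := s) (f := f) (t := f⁻¹ * s) (by group) he hz (by group) hf ht hE

theorem L2 [N1.Normal] [N2.Normal] (k1 : KS N1) (k2 : KS N2) {g h : G} (hg : g ∈ N1)
    (hh : h ∈ N2) : ∃ p ∈ NC N1 g, p⁻¹ * h ∈ ZC N1 g := by
  obtain ⟨s1, hs1, s2, hs2, hD⟩ := k1.D g hg
  have hs1N : s1 ∈ N1 := NC_le_self hg (PR_sub_NC _ hs1)
  have hs2N : s2 ∈ N1 := NC_le_self hg (PR_sub_NC _ hs2)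
  obtain ⟨e1, he1, h1, hh1, rfl, hc1⟩ := step k1 k2 (comm_mem_meet hh hs1N) hh
  have c1 : Commute h1 s1 := hc1 s1 hs1N (self_mem_NC _ _)
  obtain ⟨e2, he2, h2, hh2, rfl, hc2⟩ := step k1 k2 (comm_mem_meet hh1 hs2N) hh1
  have c2 : Commute h2 s2 := hc2 s2 hs2N (self_mem_NC _ _)
  have c3 : Commute h2 s1 := hc2 s1 hs1N (by
    rw [commutatorElement_eq_one_iff_commute.mpr c1]; exact Subgroup.one_mem _)
  -- `h2` centralises the normal closure of `g`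
  have hz : h2 ∈ ZC N1 g := by
    rw [mem_ZC]
    intro n hn
    have hp : n * g * n⁻¹ ∈ NC N1 g := Subgroup.subset_closure ⟨n, hn, rfl⟩
    have hpN : n * g * n⁻¹ ∈ N1 := NC_le_self hg hp
    obtain ⟨e', he', h'', hh'', heq, hc⟩ := step k1 k2 (comm_mem_meet hh2 hpN) hh2
    have d1 : Commute h'' s1 := hc s1 hs1N (by
      rw [commutatorElement_eq_one_iff_commute.mpr c3]; exact Subgroup.one_mem _)
    have d2 : Commute h'' s2 := hc s2 hs2N (by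
      rw [commutatorElement_eq_one_iff_commute.mpr c2]; exact Subgroup.one_mem _)
    have d3 : Commute h'' (n * g * n⁻¹) := hc _ hpN (self_mem_NC _ _)
    have he'' : e' = h2 * h''⁻¹ := by rw [heq]; group
    have f1 : Commute e' s1 := by rw [he'']; exact c3.mul_left d1.inv_left
    have f2 : Commute e' s2 := by rw [he'']; exact c2.mul_left d2.inv_left
    obtain ⟨y1, hy1, y2, hy2, hc'⟩ := hD e' he'.1
    rw [commutatorElement_eq_one_iff_commute.mpr f1] at hy1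
    rw [commutatorElement_eq_one_iff_commute.mpr f2] at hy2
    rw [PR_one hy1, PR_one hy2] at hc'
    have hz' : e' ∈ ZC N1 g := by simpa using hc'
    have f3 : Commute e' (n * g * n⁻¹) := commute_of_ZC hz' hp
    rw [heq]
    exact f3.mul_left d3
  obtain ⟨p, hp, hpz⟩ := k1.decomp hg (N1.mul_mem he1.1 he2.1)
  refine ⟨p, hp, ?_⟩
  have : p⁻¹ * (e1 * (e2 * h2)) = (p⁻¹ * (e1 * e2)) * h2 := by group
  rw [this]
  exact (ZC N1 g).mul_mem hpz hz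

theorem L3 [N1.Normal] [N2.Normal] (k1 : KS N1) (k2 : KS N2) {g : G} (hg : g ∈ N1) :
    ∀ x ∈ N1 ⊔ N2, ∃ p ∈ NC N1 g, p⁻¹ * x ∈ ZC N1 g := by
  intro x hx
  obtain ⟨n1, hn1, n2, hn2, rfl⟩ := Subgroup.mem_sup_of_normal_left.mp hx
  obtain ⟨p1, hp1, hz1⟩ := k1.decomp hg hn1
  obtain ⟨p2, hp2, hz2⟩ := L2 k1 k2 hg hn2
  refine ⟨p1 * p2, Subgroup.mul_mem _ hp1 hp2, ?_⟩
  have hc : Commute (p1⁻¹ * n1) p2 := commute_of_ZC hz1 hp2
  have : (p1 * p2)⁻¹ * (n1 * n2) = (p1⁻¹ * n1) * (p2⁻¹ * n2) := by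
    calc (p1 * p2)⁻¹ * (n1 * n2) = (p2⁻¹ * (p1⁻¹ * n1)) * n2 := by group
      _ = ((p1⁻¹ * n1) * p2⁻¹) * n2 := by rw [hc.inv_right.eq]
      _ = _ := by group
  rw [this]
  exact Subgroup.mul_mem _ hz1 hz2

/-- Elements of `N1` satisfy the local conditions in `G = N1 N2`. -/
theorem loc_of_mem [N1.Normal] (k1 : KS N1) {g : G} (hg : g ∈ N1)
    (hdec : ∀ x : G, ∃ p ∈ NC N1 g, p⁻¹ * x ∈ ZC N1 g) : LocA g ∧ LocD g := by
  have hconj : ∀ h : G, ∃ p ∈ N1, h * g * h⁻¹ = p * g * p⁻¹ := by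
    intro h
    obtain ⟨p, hp, hz⟩ := hdec h
    refine ⟨p, NC_le_self hg hp, ?_⟩
    have hc : Commute (p⁻¹ * h) g := commute_of_ZC hz (self_mem_NC _ _)
    have h1 : (p⁻¹ * h) * g * (p⁻¹ * h)⁻¹ = g := by rw [hc.eq]; group
    calc h * g * h⁻¹ = p * ((p⁻¹ * h) * g * (p⁻¹ * h)⁻¹) * p⁻¹ := by group
      _ = p * g * p⁻¹ := by rw [h1]
  constructor
  · obtain ⟨a, _, b, _, c, _, h⟩ := k1.A g hg
    exact ⟨a, b, c, h⟩
  · obtain ⟨s1, hs1, s2, hs2, hD⟩ := k1.D g hg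
    have m1 := PR_sub_NC _ hs1
    have m2 := PR_sub_NC _ hs2
    obtain ⟨a1, _, b1, _, r1⟩ := hs1
    obtain ⟨a2, _, b2, _, r2⟩ := hs2
    refine ⟨s1, ⟨a1, b1, r1⟩, s2, ⟨a2, b2, r2⟩, ?_⟩
    intro x
    obtain ⟨p, hp, hz⟩ := hdec x
    obtain ⟨y1, ⟨c1, _, d1, _, q1⟩, y2, ⟨c2, _, d2, _, q2⟩, hc⟩ := hD p (NC_le_self hg hp)
    have hcom : ∀ s ∈ NC N1 g, ⁅x, s⁆ = ⁅p, s⁆ := by
      intro s hs
      have hcs : Commute (p⁻¹ * x) s := commute_of_ZC hz hs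
      rw [commutatorElement_def, commutatorElement_def]
      calc x * s * x⁻¹ * s⁻¹ = p * ((p⁻¹ * x) * s) * (p⁻¹ * x)⁻¹ * p⁻¹ * s⁻¹ := by group
        _ = p * (s * (p⁻¹ * x)) * (p⁻¹ * x)⁻¹ * p⁻¹ * s⁻¹ := by rw [hcs.eq]
        _ = _ := by group
    refine ⟨y1, ⟨c1, d1, ?_⟩, y2, ⟨c2, d2, ?_⟩, ?_⟩
    · rw [hcom s1 m1]; exact q1
    · rw [hcom s2 m2]; exact q2
    · intro h
      obtain ⟨n, hn, e⟩ := hconj h
      rw [e]
      have h1 : (y1 * y2)⁻¹ * x = ((y1 * y2)⁻¹ * p) * (p⁻¹ * x) := by group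
      rw [h1]
      exact (mem_ZC _ _ _).mp (Subgroup.mul_mem _ hc hz) n hn

end two

end Pool.Agent.H28.Rad
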